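import Pool.Agent.MP_fcd29e_an.H11.CS

/-!
The tube: from the local theorem to a global defining function.
-/

set_option autoImplicit false

open Complex Set Filter Topology Metric Pool.Agent.MP_fcd29e_an.H81 Pool.Agent.MP_fcd29e_an.H11
open scoped ContDiff ComplexConjugate

namespace Pool.Agent.MP_fcd29e_an.H34

namespace CTB

theorem unif {X : Type} [TopologicalSpace X] {C : Set X} (hC : IsCompact C) {p : ℝ → X → Prop}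
    (h : ∀ k ∈ C, ∃ Λ : ℝ, ∀ᶠ y in 𝓝 k, ∀ l ≥ Λ, p l y) :
    ∃ Λ : ℝ, ∀ᶠ y in 𝓝ˢ C, ∀ l ≥ Λ, p l y := by
  have h1 : {q : ℝ × X | p q.1 q.2} ∈ atTop ×ˢ 𝓝ˢ C :=
    hC.mem_prod_nhdsSet_of_forall fun k hk => by
      obtain ⟨Λ, hΛ⟩ := h k hk
      exact mem_of_superset (prod_mem_prod (Ici_mem_atTop Λ) hΛ) fun q hq => hq.2 q.1 hq.1
  obtain ⟨s, hs, t, ht, hst⟩ := mem_prod_iff.1 h1
  obtain ⟨Λ, hΛ⟩ := mem_atTop_sets.1 hs
  exact ⟨Λ, mem_of_superset ht fun y hy l hl => hst (mk_mem_prod (hΛ l hl) hy)⟩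

variable {N : ℕ}

theorem ev_smul {p : E N → Prop} {k : E N} {c : ℂ} (hc : c ≠ 0) (h : ∀ᶠ Z in 𝓝 k, p Z) :
    ∀ᶠ Z in 𝓝 (c • k), p (c⁻¹ • Z) := by
  have h1 : Tendsto (fun Z : E N => c⁻¹ • Z) (𝓝 (c • k)) (𝓝 (c⁻¹ • c • k)) :=
    (continuous_const_smul c⁻¹).continuousAt
  rw [inv_smul_smul₀ hc] at h1
  exact h1.eventually h

theorem unit {Z : E N} (hZ : Z ≠ 0) : ∃ c : ℂ, c ≠ 0 ∧ c • Z ∈ sphere (0 : E N) 1 := by
  have h : (‖Z‖ : ℂ) ≠ 0 := by exact_mod_cast norm_ne_zero_iff.2 hZ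
  refine ⟨(‖Z‖ : ℂ)⁻¹, inv_ne_zero h, ?_⟩
  rw [mem_sphere_zero_iff_norm, norm_smul, norm_inv, Complex.norm_real, norm_norm,
    inv_mul_cancel₀ (norm_ne_zero_iff.2 hZ)]

theorem at0 {F : Type} [NormedAddCommGroup F] [NormedSpace ℝ F] {f : E N → F}
    (h : ContDiffOn ℝ ∞ f (E0 N)) {Z : E N} (hZ : Z ≠ 0) : ContDiffAt ℝ ∞ f Z :=
  h.contDiffAt (isOpen_compl_singleton.mem_nhds hZ)

theorem psc_congr {ρ ρ' : E N → ℝ} {Z : E N} (h : ρ =ᶠ[𝓝 Z] ρ') (h' : Psc ρ' Z) : Psc ρ Z := by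
  unfold Psc lev hs at h' ⊢
  rw [h.eq_of_nhds, h.fderiv_eq, h.fderiv.fderiv_eq]
  exact h'

theorem psc_smul (hLV : SLV) {ρ : E N → ℝ} (hs : ContDiffOn ℝ ∞ ρ (E0 N)) (hi : Inv ρ) {Z : E N}
    (hZ : Z ≠ 0) {c : ℂ} (hc : c ≠ 0) (h : Psc ρ Z) : Psc ρ (c • Z) := by
  have key : ∀ v, lev ρ (c • Z) v = lev ρ Z (c⁻¹ • v) ∧
      fderiv ℝ ρ (c • Z) v = fderiv ℝ ρ Z (c⁻¹ • v) := fun v => by
    have h1 := hLV.hol (E N) (E N) ρ (fun q => c⁻¹ • q) (c • Z) v (by fun_prop)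
      (by rw [inv_smul_smul₀ hc]; exact (at0 hs hZ).of_le (by norm_cast))
    have h2 : (fun q => ρ (c⁻¹ • q)) = ρ := funext fun q => hi _ (inv_ne_zero hc) q
    have h3 : fderiv ℂ (fun q : E N => c⁻¹ • q) (c • Z) v = c⁻¹ • v :=
      DFunLike.congr_fun ((hasFDerivAt_id (𝕜 := ℂ) (c • Z)).fun_const_smul c⁻¹).fderiv v
    rwa [h2, h3, inv_smul_smul₀ hc] at h1
  intro h0
  rw [hi c hc] at h0
  obtain ⟨h1, h2⟩ := h h0
  refine ⟨fun e => h1 (ContinuousLinearMap.ext fun v => ?_), fun L a b => ?_⟩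
  · have := (key (c • v)).2
    rw [inv_smul_smul₀ hc, e] at this
    exact this.symm
  · rw [(key L).1]
    refine h2 _ ((key L).2 ▸ a) ?_
    rw [smul_comm, ← (key _).2, b]

section fn

variable {β : Type} [Fintype β] {A Y : E N → ℝ} (Q : β → (E N →L[ℂ] E N →L[ℂ] ℂ)) (l₁ : ℝ)

theorem Tz_smooth (hA : ContDiffOn ℝ ∞ A (E0 N)) (hY : ContDiffOn ℝ ∞ Y (E0 N)) :
    ContDiffOn ℝ ∞ (Tz A Y Q l₁) (E0 N) := by
  have h1 : ∀ b, ContDiff ℝ ∞ fun Z : E N => Q b Z Z := fun b =>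
    (((Q b).contDiff (n := ∞)).clm_apply contDiff_id).restrict_scalars ℝ
  have h2 : ContDiff ℝ ∞ fun Z : E N => ‖Z‖ ^ 4 := by
    have := (contDiff_norm_sq ℂ (E := E N) (n := ∞)).pow 2
    simpa only [← pow_mul] using this
  refine (hA.mul hY).add (contDiffOn_const.mul (ContDiffOn.div ?_ h2.contDiffOn ?_))
  · exact (ContDiff.sum fun b _ => (h1 b).norm_sq ℂ).contDiffOn
  · exact fun Z hZ => pow_ne_zero _ (norm_ne_zero_iff.2 hZ)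

theorem Tz_inv (hA : Inv A) (hY : Inv Y) : Inv (Tz A Y Q l₁) := fun c hc Z => by
  have h : ‖c‖ ^ 4 ≠ 0 := pow_ne_zero _ (norm_ne_zero_iff.2 hc)
  have h1 : ∀ b, ‖Q b (c • Z) (c • Z)‖ ^ 2 = ‖c‖ ^ 4 * ‖Q b Z Z‖ ^ 2 := fun b => by
    simp only [map_smul, smul_apply, norm_smul]
    ring
  simp only [Tz, hA c hc, hY c hc, h1, ← Finset.mul_sum, norm_smul, mul_pow,
    mul_div_mul_left _ _ h]

variable {ι J δ : Type} [Fintype ι] [Fintype δ] (d : Data ι N J δ) {G : δ → Fin N → E N → ℂ}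

theorem R_smooth (hG : ∀ e l, ContDiffOn ℝ ∞ (G e l) (E0 N)) :
    ContDiffOn ℝ ∞ (d.R G) (E0 N) := by
  refine ContDiffOn.div ?_ (contDiff_norm_sq ℂ (E := E N) (n := ∞)).contDiffOn
    fun Z hZ => pow_ne_zero _ (norm_ne_zero_iff.2 hZ)
  refine reCLM.contDiff.comp_contDiffOn (ContDiffOn.sum fun e _ => ContDiffOn.sum fun l _ => ?_)
  have h1 : ContDiff ℝ ∞ fun Z : E N => Z l :=
    ((EuclideanSpace.proj l : E N →L[ℂ] ℂ).contDiff (n := ∞)).restrict_scalars ℝ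
  exact ((hG e l).mul (conjCLE.contDiff.comp h1).contDiffOn).mul
    (((d.ζ e).contDiff (n := ∞)).restrict_scalars ℝ).contDiffOn

theorem R_inv (hG : ∀ e l, Inv (G e l)) : Inv (d.R G) := fun c hc Z => by
  have h : ‖c‖ ^ 2 ≠ 0 := pow_ne_zero _ (norm_ne_zero_iff.2 hc)
  have h1 : ∀ e l, G e l (c • Z) * conj ((c • Z) l) * d.ζ e (c • Z) =
      ((‖c‖ ^ 2 : ℝ) : ℂ) * (G e l Z * conj (Z l) * d.ζ e Z) := fun e l => by
    rw [hG e l c hc, map_smul, PiLp.smul_apply, smul_eq_mul, smul_eq_mul, map_mul, ofReal_pow,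
      ← Complex.mul_conj']
    ring
  simp only [Data.R, h1, ← Finset.mul_sum, re_ofReal_mul, norm_smul, mul_pow,
    mul_div_mul_left _ _ h]

end fn

/-- The gluing step, for abstract functions `T`, `R`. -/
theorem glue (hLV : SLV) (hCU : SCU) {K : Set (E N)} {T R : E N → ℝ} (hK : Cone K)
    (hc : IsClosed (K ∪ {0})) (hZ : ∃ Z, Z ≠ 0 ∧ Z ∉ K) (sT : ContDiffOn ℝ ∞ T (E0 N))
    (iT : Inv T) (pT : ∀ Z, 0 ≤ T Z) (sR : ContDiffOn ℝ ∞ R (E0 N)) (iR : Inv R)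
    (h0 : ∀ k ∈ K, T k = 0 ∧ R k = 0) (hC : IsCompact (K ∩ sphere 0 1))
    (h : ∀ k ∈ K ∩ sphere 0 1, ∃ Λ : ℝ, ∀ᶠ Z in 𝓝 k, ∀ l ≥ Λ,
      (Z ∉ K → 0 < T Z) ∧ Psc (fun Z' => l * T Z' - R Z') Z) :
    ∃ ρ : E N → ℝ, Dom ρ ∧ ∀ k ∈ K, ρ k ≤ 0 := by
  obtain ⟨Λ, hΛ⟩ := unif hC h
  obtain ⟨U₁, hU, hKU, hU₁⟩ := mem_nhdsSet_iff_exists.1 hΛ
  obtain ⟨χ, sχ, iχ, bχ, zχ, oχ⟩ := hCU N K (⋃ c : ℂ, ⋃ _ : c ≠ 0, (fun Z => c • Z) ⁻¹' U₁) hK hc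
    (isOpen_iUnion fun c => isOpen_iUnion fun _ => hU.preimage (continuous_const_smul c))
    fun k hk => by
      obtain ⟨c, hc, h1⟩ := unit (Z := k) fun e => hK.1 (e ▸ hk)
      exact mem_iUnion₂.2 ⟨c, hc, hKU ⟨hK.2 c hc k hk, h1⟩⟩
  have near : ∀ Z, Z ≠ 0 → χ Z ≠ 1 → ∀ l ≥ Λ,
      (Z ∉ K → 0 < T Z) ∧ Psc (fun Z' => l * T Z' - R Z') Z := fun Z hZ h1 l hl => by
    obtain ⟨c, hc, h2⟩ : ∃ c : ℂ, c ≠ 0 ∧ c • Z ∈ U₁ := by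
      by_contra hn
      refine h1 (oχ Z hZ fun c hc hm => hn ?_)
      obtain ⟨c', hc', h3⟩ := mem_iUnion₂.1 hm
      exact ⟨c' * c, mul_ne_zero hc' hc, by rw [mul_smul]; exact h3⟩
    obtain ⟨h3, h4⟩ := hU₁ h2 l hl
    refine ⟨fun hn => iT c hc Z ▸ h3 fun hm => hn ?_, ?_⟩
    · simpa only [inv_smul_smul₀ hc] using hK.2 _ (inv_ne_zero hc) _ hm
    · simpa only [inv_smul_smul₀ hc] using psc_smul hLV ((contDiffOn_const.mul sT).sub sR)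
        (fun c hc Z => by simp only [iT c hc, iR c hc]) (smul_ne_zero hc hZ) (inv_ne_zero hc) h4
  have pos : ∀ Z, Z ≠ 0 → Z ∉ K → 0 < T Z + χ Z := fun Z hZ hn => by
    by_cases h1 : χ Z = 1
    · linarith [pT Z]
    · linarith [(near Z hZ h1 Λ le_rfl).1 hn, (bχ Z).1]
  obtain ⟨Z₀, hZ₀, hZK⟩ := hZ
  let C : Set (E N) := insert Z₀ (sphere 0 1 ∩ {Z | ∀ᶠ y in 𝓝 Z, χ y = 0}ᶜ)
  have cC : IsCompact C :=
    ((isCompact_sphere 0 1).inter_right isOpen_setOfPred_eventually_nhds.isClosed_compl).insert Z₀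
  have mC : ∀ Z ∈ C, Z ≠ 0 ∧ Z ∉ K := by
    rintro Z (rfl | ⟨h1, h2⟩)
    · exact ⟨hZ₀, hZK⟩
    · exact ⟨ne_zero_of_mem_unit_sphere ⟨Z, h1⟩, fun hk => h2 (zχ Z hk)⟩
  obtain ⟨M, hM⟩ := cC.bddAbove_image (f := fun Z => R Z / (T Z + χ Z)) fun Z hZ =>
    ((at0 sR (mC Z hZ).1).continuousAt.div ((at0 sT (mC Z hZ).1).continuousAt.add
      (at0 sχ (mC Z hZ).1).continuousAt) (pos Z (mC Z hZ).1 (mC Z hZ).2).ne').continuousWithinAt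
  obtain ⟨l, hl1, hl2⟩ : ∃ l, Λ ≤ l ∧ M < l :=
    ⟨max Λ (M + 1), le_max_left _ _, (lt_add_one M).trans_le (le_max_right _ _)⟩
  have far : ∀ Z ∈ C, 0 < l * (T Z + χ Z) - R Z := fun Z hZ => by
    have h1 : R Z / (T Z + χ Z) < l := (hM (mem_image_of_mem _ hZ)).trans_lt hl2
    rw [div_lt_iff₀ (pos Z (mC Z hZ).1 (mC Z hZ).2)] at h1
    linarith
  have sρ : ContDiffOn ℝ ∞ (fun Z => l * (T Z + χ Z) - R Z) (E0 N) :=
    (contDiffOn_const.mul (sT.add sχ)).sub sR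
  have iρ : Inv fun Z => l * (T Z + χ Z) - R Z := fun c hc Z => by
    simp only [iT c hc, iR c hc, iχ c hc]
  have all : ∀ Z, Z ≠ 0 → Psc (fun Z => l * (T Z + χ Z) - R Z) Z := fun Z hZ => by
    by_cases h1 : ∀ᶠ y in 𝓝 Z, χ y = 0
    · refine psc_congr (h1.mono fun y hy => ?_)
        (near Z hZ (by rw [h1.self_of_nhds]; exact zero_ne_one) l hl1).2
      simp only [hy, add_zero]
    · obtain ⟨c, hc, h2⟩ := unit hZ
      have h3 := far (c • Z) (Or.inr ⟨h2, fun hm => h1 (by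
        have h4 := ev_smul (inv_ne_zero hc) hm
        rw [inv_smul_smul₀ hc] at h4
        exact h4.mono fun y hy => iχ _ (inv_ne_zero (inv_ne_zero hc)) y ▸ hy)⟩)
      exact fun e => absurd ((iρ c hc Z).trans e) h3.ne'
  refine ⟨fun Z => l * (T Z + χ Z) - R Z, ⟨sρ, iρ, fun Z hZ e => (all Z hZ e).1,
    fun Z hZ e L hL => ?_, Z₀, hZ₀, far Z₀ (Or.inl rfl)⟩, fun k hk => ?_⟩
  · obtain ⟨k1, k2⟩ := hLV.kit N _ Z L (at0 sρ hZ)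
    rw [k1]
    exact div_nonneg ((all Z hZ e).2 _ (k2 hL).1 (k2 hL).2) (by norm_num)
  · simp only [(h0 k hk).1, (h0 k hk).2, (zχ k hk).self_of_nhds, add_zero, mul_zero, sub_zero,
      le_refl]

end CTB

open CTB in
theorem stb (hLV : SLV) (hKC : SKC) (hGL : SGL) (hT1 : ST1) (hCU : SCU) : STB := by
  intro ι _ _ N J δ _ d hd
  obtain ⟨ne, cK, -, KS, cl, hZ, disc⟩ := hKC ι N J δ d hd
  obtain ⟨U, A, Y, G, gl⟩ := hGL ι N J δ d hd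
  let QS : Submodule ℂ (E N →L[ℂ] E N →L[ℂ] ℂ) :=
    { carrier := {Q | Quad d.S Q}
      add_mem' := fun {a b} ha hb Z hZ => by simp [ha Z hZ, hb Z hZ]
      zero_mem' := fun Z _ => rfl
      smul_mem' := fun c {a} ha Z hZ => by simp [ha Z hZ] }
  have : FiniteDimensional ℂ (E N →L[ℂ] E N →L[ℂ] ℂ) :=
    ContinuousLinearMap.instModuleFinite
  have hN := (IsNoetherian.iff_fg (K := ℂ) (V := E N →L[ℂ] E N →L[ℂ] ℂ)).2 this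
  obtain ⟨n, Q, hQ⟩ := Submodule.fg_iff_exists_fin_generating_family.1 (hN.noetherian QS)
  have q1 : ∀ b, Quad d.S (Q b) := fun b =>
    show Q b ∈ QS from hQ ▸ Submodule.subset_span (mem_range_self b)
  have hC : IsCompact (d.K ∩ sphere 0 1) := by
    have : d.K ∩ sphere 0 1 = sphere 0 1 ∩ (d.K ∪ {0}) := by
      ext Z
      refine ⟨fun h => ⟨h.2, Or.inl h.1⟩, fun h => ⟨h.2.resolve_right ?_, h.1⟩⟩
      exact ne_zero_of_mem_unit_sphere ⟨Z, h.1⟩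
    rw [this]
    exact (isCompact_sphere 0 1).inter_right cl
  have sR := R_smooth d fun e l => (gl.hG e l).1
  have iR := R_inv d fun e l => (gl.hG e l).2
  obtain ⟨Λ₁, hΛ₁⟩ := unif hC (p := fun l₁ k => k ∈ d.K → ∃ Λ : ℝ, ∀ᶠ Z in 𝓝 k, ∀ l ≥ Λ,
      (Z ∉ d.K → 0 < Tz A Y Q l₁ Z) ∧ Psc (fun Z' => l * Tz A Y Q l₁ Z' - d.R G Z') Z) (by
    rintro _ ⟨⟨i, z, hz, x, hx, c, hc, rfl⟩, -⟩
    obtain ⟨Λ₁, O, hO, h⟩ := hT1 ι N J δ (Fin n) d hd U A Y G gl Q q1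
      (fun Q' h' => hQ ▸ (show Q' ∈ QS from h')) i z hz x hx
    refine ⟨Λ₁, (ev_smul hc hO).mono fun k hk l₁ hl hkK => ?_⟩
    obtain ⟨Λ, h1⟩ := h l₁ hl (c⁻¹ • k) ⟨cK.2 _ (inv_ne_zero hc) k hkK, hk⟩
    have h2 := ev_smul hc h1
    rw [smul_inv_smul₀ hc] at h2
    have iT := Tz_inv Q l₁ gl.hA.2.1 gl.hY.2.1
    refine ⟨Λ, (h2.and (isOpen_compl_singleton.mem_nhds fun e : k = 0 => cK.1 (e ▸ hkK))).mono
      fun Z hZ l hl => ⟨fun hn => iT _ (inv_ne_zero hc) Z ▸ hZ.1.1 fun hm => hn ?_, ?_⟩⟩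
    · simpa only [smul_inv_smul₀ hc] using cK.2 _ hc _ hm
    · simpa only [smul_inv_smul₀ hc] using psc_smul hLV
        ((contDiffOn_const.mul (Tz_smooth Q l₁ gl.hA.1 gl.hY.1)).sub sR)
        (fun c hc Z => by simp only [iT c hc, iR c hc]) (smul_ne_zero (inv_ne_zero hc) hZ.2) hc
        (hZ.1.2 l hl))
  obtain ⟨ρ, hρ, hK⟩ := glue hLV hCU cK cl hZ (Tz_smooth Q (max Λ₁ 0) gl.hA.1 gl.hY.1)
    (Tz_inv Q _ gl.hA.2.1 gl.hY.2.1)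
    (fun Z => add_nonneg (mul_nonneg (gl.hA.2.2 Z) (gl.hY.2.2 Z))
      (mul_nonneg (le_max_right _ _) (by positivity))) sR iR
    (fun k hk => by
      have h1 : ∀ b, Q b k k = 0 := fun b => q1 b k (KS hk)
      obtain ⟨i, z, hz, x, hx, c, hc, rfl⟩ := hk
      have h2 : x ≠ 0 := fun e => by simpa [e] using hx.2.2
      have h3 := gl.onS i z hz x h2 hx.2.1
        (gl.sub ⟨i, z, hz, x, hx, 1, one_ne_zero, (one_smul _ _).symm⟩)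
      rw [hx.1, hx.2.1] at h3
      constructor
      · simp only [Tz, h1, gl.hY.2.1 c hc, h3]
        simp
      · simp [Data.R, hd.hζ _ i z hz]) hC
    fun k hk => hΛ₁.self_of_nhdsSet k hk _ (le_max_left _ _) hk.1
  exact ⟨ρ, hρ, ne, cK, hK, cl, disc⟩

end Pool.Agent.MP_fcd29e_an.H34
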